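import Mathlib
import Pool.Agent.Lib.MP_f7c71a_lc.Oracle

set_option autoImplicit false

/-!
# Turing reducibility of binary sequences is a Borel relation (MP_75b31c_lc, section 2)
-/

namespace Pool.Agent.Lib.MP_75b31c_lc.N40.H30

open Nat.Partrec (Code)
open Encodable
open Pool.Agent.Lib.MP_f26228_lc (seg seg_length seg_getElem? seg_prefix seg_take val_primrec val_mono)
open Pool.Agent.Lib.MP_f7c71a_lc (search_rec oracle_code mem_rfindOpt nrec_prim nrec_comp nrec_pair)

/-- `y ≤_T z`. -/
def TR (y z : ℕ → Bool) : Prop :=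
  TuringReducible (fun n => Part.some (y n).toNat) (fun n => Part.some (z n).toNat)

theorem TR.refl (y : ℕ → Bool) : TR y y := TuringReducible.refl _

theorem TR.trans {x y z : ℕ → Bool} (h : TR x y) (h' : TR y z) : TR x z :=
  TuringReducible.trans h h'

/-- the bits of `z` as natural numbers -/
def nb (z : ℕ → Bool) (n : ℕ) : ℕ := (z n).toNat

theorem tr_iff (y z : ℕ → Bool) : TR y z ↔ ∃ c : Code, ∀ n, ∃ t,
    Pool.Agent.Lib.MP_f26228_lc.val c (seg (nb z) t) n = some (y n).toNat := by
  constructor
  · intro h
    have h' : RecursiveIn {fun n => Part.some (nb z n)}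
        (fun n : ℕ => Part.some (y n).toNat) := h
    obtain ⟨c, hc⟩ := oracle_code (nb z) h'
    refine ⟨c, fun n => ?_⟩
    obtain ⟨t, ht⟩ := (hc n (y n).toNat).1 ⟨_, Part.mem_some _, rfl⟩
    exact ⟨t, ht⟩
  · rintro ⟨c, hc⟩
    have hΘ : Primrec₂ fun (ρ : List ℕ) (n : ℕ) =>
        Pool.Agent.Lib.MP_f26228_lc.val c ρ n :=
      val_primrec.comp (Primrec.pair (Primrec.pair (Primrec.const c) Primrec.fst) Primrec.snd)
    have hS := search_rec (nb z) hΘ
    refine RecursiveIn.of_eq hS fun n => ?_
    refine Part.eq_some_iff.2 ?_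
    refine (mem_rfindOpt ?_).2 (hc n)
    intro s u v hsu hv
    exact val_mono (seg_prefix _ hsu) hv

theorem measurable_fin_dep (t : ℕ) (P : List ℕ → Prop) :
    MeasurableSet {z : ℕ → Bool | P (seg (nb z) t)} := by
  let res : (ℕ → Bool) → (Fin t → Bool) := fun z i => z i
  let ext : (Fin t → Bool) → ℕ → Bool := fun r n => if h : n < t then r ⟨n, h⟩ else false
  have hres : Measurable res := measurable_pi_lambda _ fun i => measurable_pi_apply _
  have hS : MeasurableSet {r : Fin t → Bool | P (seg (nb (ext r)) t)} :=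
    (Set.toFinite _).measurableSet
  have : {z : ℕ → Bool | P (seg (nb z) t)} =
      res ⁻¹' {r : Fin t → Bool | P (seg (nb (ext r)) t)} := by
    ext z
    have e : seg (nb z) t = seg (nb (ext (res z))) t := by
      unfold seg
      refine List.map_congr_left fun n hn => ?_
      have hn' : n < t := List.mem_range.1 hn
      simp [nb, ext, res, hn']
    simp only [Set.mem_setOf_eq, Set.mem_preimage]
    rw [e]
  rw [this]
  exact hres hS

theorem measurableSet_tr : MeasurableSet {p : (ℕ → Bool) × (ℕ → Bool) | TR p.1 p.2} := by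
  simp only [tr_iff]
  have e : {p : (ℕ → Bool) × (ℕ → Bool) | ∃ c : Code, ∀ n, ∃ t,
      Pool.Agent.Lib.MP_f26228_lc.val c (seg (nb p.2) t) n = some (p.1 n).toNat} =
      ⋃ c : Code, ⋂ n : ℕ, ⋃ t : ℕ, ⋃ b : Bool, (fun p : (ℕ → Bool) × (ℕ → Bool) => p.2) ⁻¹'
        {z | Pool.Agent.Lib.MP_f26228_lc.val c (seg (nb z) t) n = some b.toNat} ∩
        (fun p : (ℕ → Bool) × (ℕ → Bool) => p.1 n) ⁻¹' {b} := by
    ext p
    simp only [Set.mem_setOf_eq, Set.mem_iUnion, Set.mem_iInter, Set.mem_inter_iff,
      Set.mem_preimage, Set.mem_singleton_iff]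
    refine exists_congr fun c => forall_congr' fun n => exists_congr fun t => ?_
    constructor
    · intro h
      exact ⟨p.1 n, h, rfl⟩
    · rintro ⟨b, h, rfl⟩
      exact h
  rw [e]
  have : Countable Code := Encodable.countable
  refine MeasurableSet.iUnion fun c => MeasurableSet.iInter fun n => MeasurableSet.iUnion fun t =>
    MeasurableSet.iUnion fun b => MeasurableSet.inter ?_ ?_
  · exact measurable_snd (measurable_fin_dep t fun l =>
      Pool.Agent.Lib.MP_f26228_lc.val c l n = some b.toNat)
  · exact ((measurable_pi_apply n).comp measurable_fst) (measurableSet_singleton b)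

/-! ### The play against a coded strategy -/

/-- The first `n` bits of the play: at `n % 2 = e` the bit is given by the strategy `p` (a code),
otherwise by `b`. -/
def plL (e : ℕ) (p b : ℕ → Bool) : ℕ → List Bool
  | 0 => []
  | n + 1 => plL e p b n ++ [if n % 2 = e then p (encode (plL e p b n)) else b (n / 2)]

/-- The play. -/
def pl (e : ℕ) (p b : ℕ → Bool) (n : ℕ) : Bool :=
  if n % 2 = e then p (encode (plL e p b n)) else b (n / 2)

theorem plL_eq (e : ℕ) (p b : ℕ → Bool) (n : ℕ) :
    plL e p b n = (List.range n).map (pl e p b) := by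
  induction n with
  | zero => rfl
  | succ n ih =>
    rw [List.range_succ, List.map_append, ← ih]
    rfl

theorem pl_own (e : ℕ) (p b : ℕ → Bool) (n : ℕ) (hn : n % 2 = e) :
    pl e p b n = p (encode ((List.range n).map (pl e p b))) := by
  rw [← plL_eq]
  unfold pl
  rw [if_pos hn]

theorem pl_other (e : ℕ) (p b : ℕ → Bool) (n : ℕ) (hn : n % 2 ≠ e) :
    pl e p b n = b (n / 2) := by
  unfold pl
  rw [if_neg hn]

theorem tr_pl_left (e : ℕ) (he : e < 2) (p b : ℕ → Bool) : TR b (pl e p b) := by
  set O : Set (ℕ →. ℕ) := {fun n => Part.some (pl e p b n).toNat} with hO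
  have hX : Nat.RecursiveIn O (fun n => Part.some (pl e p b n).toNat) := .oracle _ rfl
  have h1 := nrec_comp (g := fun n => 2 * n + (1 - e)) hX
    (nrec_prim (Primrec.nat_add.comp (Primrec.nat_mul.comp (Primrec.const 2) Primrec.id)
      (Primrec.const _)))
  refine RecursiveIn.iff_nat.2 (h1.of_eq fun n => ?_)
  have h2 : (2 * n + (1 - e)) % 2 ≠ e := by omega
  rw [pl_other e p b _ h2]
  have h3 : (2 * n + (1 - e)) / 2 = n := by omega
  rw [h3]

theorem tr_pl_right (e : ℕ) (p b : ℕ → Bool) (hp : TR p b) : TR (pl e p b) b := by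
  set O : Set (ℕ →. ℕ) := {fun n => Part.some (b n).toNat} with hO
  have hb : Nat.RecursiveIn O (fun n => Part.some (b n).toNat) := .oracle _ rfl
  have hp' : Nat.RecursiveIn O (fun n => Part.some (p n).toNat) := RecursiveIn.iff_nat.1 hp
  -- `bit (pair u (pair v n))`
  let B : ℕ → ℕ := fun q => if q.unpair.2.unpair.2 % 2 = e then q.unpair.1 else q.unpair.2.unpair.1
  have hB : Primrec B := by
    refine Primrec.ite ?_ (Primrec.fst.comp Primrec.unpair)
      (Primrec.fst.comp (Primrec.unpair.comp (Primrec.snd.comp Primrec.unpair)))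
    exact Primrec.eq.comp (Primrec.nat_mod.comp (Primrec.snd.comp (Primrec.unpair.comp
      (Primrec.snd.comp Primrec.unpair))) (Primrec.const 2)) (Primrec.const e)
  -- the bit at `n` if the coded list is `i`; argument `pair n i`
  let bt : ℕ → ℕ := fun q => B (Nat.pair (p q.unpair.2).toNat
    (Nat.pair (b (q.unpair.1 / 2)).toNat q.unpair.1))
  have hbt : Nat.RecursiveIn O (fun q => Part.some (bt q)) := by
    refine nrec_comp (f := fun n => Part.some (B n)) (nrec_prim hB) ?_
    refine nrec_pair (f := fun q => (p q.unpair.2).toNat)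
      (g := fun q => Nat.pair (b (q.unpair.1 / 2)).toNat q.unpair.1) ?_ ?_
    · exact nrec_comp (g := fun q => q.unpair.2) hp'
        (nrec_prim (Primrec.snd.comp Primrec.unpair))
    · refine nrec_pair (f := fun q => (b (q.unpair.1 / 2)).toNat) (g := fun q => q.unpair.1) ?_
        (nrec_prim (Primrec.fst.comp Primrec.unpair))
      exact nrec_comp (g := fun q => q.unpair.1 / 2) hb
        (nrec_prim (Primrec.nat_div.comp (Primrec.fst.comp Primrec.unpair) (Primrec.const 2)))
  -- append a bit; argument `pair bit i`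
  let A : ℕ → ℕ := fun q => encode (((decode (α := List Bool) q.unpair.2).getD []) ++
    [decide (q.unpair.1 = 1)])
  have hA : Primrec A := by
    refine Primrec.encode.comp (Primrec.list_append.comp ?_ ?_)
    · exact Primrec.option_getD.comp (Primrec.decode.comp (Primrec.snd.comp Primrec.unpair))
        (Primrec.const [])
    · refine Primrec.list_cons.comp ?_ (Primrec.const [])
      exact (Primrec.eq.decide.comp (Primrec.fst.comp Primrec.unpair) (Primrec.const 1))
  let h : ℕ → ℕ := fun q => A (Nat.pair (bt q.unpair.2) q.unpair.2.unpair.2)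
  have hh : Nat.RecursiveIn O (fun q => Part.some (h q)) := by
    refine nrec_comp (f := fun n => Part.some (A n)) (nrec_prim hA) ?_
    refine nrec_pair (f := fun q => bt q.unpair.2) (g := fun q => q.unpair.2.unpair.2) ?_
      (nrec_prim (Primrec.snd.comp (Primrec.unpair.comp (Primrec.snd.comp Primrec.unpair))))
    exact nrec_comp (g := fun q => q.unpair.2) hbt (nrec_prim (Primrec.snd.comp Primrec.unpair))
  have hf : Nat.RecursiveIn O (fun _ => Part.some (encode ([] : List Bool))) :=
    nrec_prim (Primrec.const _)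
  have hpr := Nat.RecursiveIn.prec hf hh
  have hc := nrec_comp (g := fun n => Nat.pair 0 n) hpr
    (nrec_prim (Primrec₂.natPair.comp (Primrec.const 0) Primrec.id))
  have hbit : ∀ n, bt (Nat.pair n (encode (plL e p b n))) = (pl e p b n).toNat := by
    intro n
    simp only [bt, B, Nat.unpair_pair]
    unfold pl
    split <;> rfl
  have hL : Nat.RecursiveIn O (fun n => Part.some (encode (plL e p b n))) := by
    refine hc.of_eq fun n => ?_
    simp only [Nat.unpair_pair]
    induction n with
    | zero => simp [plL]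
    | succ n ih =>
      simp only [ih]
      simp only [Part.bind_eq_bind, Part.bind_some]
      congr 1
      simp only [h, A, Nat.unpair_pair, hbit]
      simp only [encodek, Option.getD_some]
      have : plL e p b (n + 1) = plL e p b n ++ [pl e p b n] := rfl
      rw [this]
      cases pl e p b n <;> simp
  have hfin : Nat.RecursiveIn O (fun n => Part.some (bt (Nat.pair n (encode (plL e p b n))))) :=
    nrec_comp (f := fun n => Part.some (bt n)) hbt
      (nrec_pair (f := fun n => n) (g := fun n => encode (plL e p b n)) (nrec_prim Primrec.id) hL)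
  refine RecursiveIn.iff_nat.2 (hfin.of_eq fun n => ?_)
  rw [hbit]

end Pool.Agent.Lib.MP_75b31c_lc.N40.H30
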