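import Pool.Agent.Lib.MP_75b31c_lc.N40.Iface
import Pool.Agent.Lib.MP_75b31c_lc.N40.H30.Play

set_option autoImplicit false

/-!
# GAM, and the measurability of Turing reducibility (MP_75b31c_lc, Part B)
-/

namespace Pool.Agent.Lib.MP_75b31c_lc.N40.H30

open Encodable

/-- Turing reducibility is a Borel relation. -/
theorem measurableSet_tle : MeasurableSet {p : (ℕ → Bool) × (ℕ → Bool) | TLe p.1 p.2} :=
  measurableSet_tr

/-- The code of a strategy. -/
def cod (σ : List Bool → Bool) (n : ℕ) : Bool := ((decode (α := List Bool) n).map σ).getD false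

theorem cod_encode (σ : List Bool → Bool) (l : List Bool) : cod σ (encode l) = σ l := by
  simp [cod]

theorem gam : GAM_S := by
  intro hBD _ C hC
  rcases hBD C hC with ⟨σ, hσ⟩ | ⟨τ, hτ⟩
  · refine ⟨cod σ, Or.inl fun b hb => ⟨pl 0 (cod σ) b, hσ _ fun n hn => ?_, ?_, ?_⟩⟩
    · rw [pl_own 0 _ b n hn, cod_encode]
    · exact tr_pl_right 0 _ b hb
    · exact tr_pl_left 0 (by norm_num) _ b
  · refine ⟨cod τ, Or.inr fun b hb => ⟨pl 1 (cod τ) b, hτ _ fun n hn => ?_, ?_, ?_⟩⟩
    · rw [pl_own 1 _ b n hn, cod_encode]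
    · exact tr_pl_right 1 _ b hb
    · exact tr_pl_left 1 (by norm_num) _ b

end Pool.Agent.Lib.MP_75b31c_lc.N40.H30
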